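import Pool.Agent.J6H99.NC.Stm

/-!
# Concentration of the passage times, uniformly in a ball
-/

set_option autoImplicit false

open MeasureTheory ProbabilityTheory Filter Topology
open scoped ENNReal

namespace Pool.Agent.J6H38.NC

open Pool.Agent.J6H99.NC

variable {e : ℕ}

lemma T_lip (q : Par) (ω : Om e) (x y y' : V e) :
    T q ω x y ≤ T q ω x y' + q.b * n1 (y - y') := by
  have h1 := T_tri q ω x y' y
  have h2 := T_le_n1 q ω y' y
  linarith

lemma T_abs_le (q : Par) (ω : Om e) (x : V e) : |T q ω 0 x| ≤ q.b * n1 x := by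
  rw [abs_of_nonneg (T_nonneg q ω 0 x)]
  have := T_le_n1 q ω 0 x
  rwa [sub_zero] at this

section

variable {q : Par} {F : Measure ℝ} [IsProbabilityMeasure F]

lemma integrable_T (x : V e) : Integrable (fun ω : Om e => T q ω 0 x) (PM e F) :=
  Integrable.of_bound (measurable_T q 0 x).aestronglyMeasurable (q.b * n1 x)
    (ae_of_all _ fun ω => by rw [Real.norm_eq_abs]; exact T_abs_le q ω x)

lemma g_nonneg (x : V e) : 0 ≤ g q F x := integral_nonneg fun ω => T_nonneg q ω 0 x

lemma g_le (x : V e) : g q F x ≤ q.b * n1 x := by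
  unfold g
  have h1 : ∫ ω, T q ω 0 x ∂(PM e F) ≤ ∫ _ω : Om e, q.b * n1 x ∂(PM e F) :=
    integral_mono (integrable_T x) (integrable_const _) fun ω => by
      have := T_le_n1 q ω 0 x
      rwa [sub_zero] at this
  simpa using h1

lemma g_lip (y y' : V e) : g q F y ≤ g q F y' + q.b * n1 (y - y') := by
  unfold g
  have h1 : ∫ ω, T q ω 0 y ∂(PM e F) ≤ ∫ ω : Om e, (T q ω 0 y' + q.b * n1 (y - y')) ∂(PM e F) :=
    integral_mono (integrable_T y) ((integrable_T y').add (integrable_const _)) fun ω =>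
      T_lip q ω 0 y y'
  rw [integral_add (integrable_T y') (integrable_const _)] at h1
  simpa using h1

/-- Chebyshev -/
lemma cheb {C : ℝ} (x : V e) (hC : ∫ ω, (T q ω 0 x - g q F x) ^ 2 ∂(PM e F) ≤ C * n1 x) {r : ℝ}
    (hr : 0 < r) : PM e F {ω | r ≤ |T q ω 0 x - g q F x|} ≤ ENNReal.ofReal (C * n1 x / r ^ 2) := by
  have hint : Integrable (fun ω : Om e => (T q ω 0 x - g q F x) ^ 2) (PM e F) := by
    refine Integrable.of_bound (((measurable_T q 0 x).sub measurable_const).pow_const
      2).aestronglyMeasurable ((q.b * n1 x) ^ 2) (ae_of_all _ fun ω => ?_)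
    rw [Real.norm_eq_abs, abs_of_nonneg (sq_nonneg _)]
    have h1 := T_nonneg q ω 0 x
    have h2 := T_abs_le q ω x
    rw [abs_of_nonneg h1] at h2
    have h3 := g_nonneg (q := q) (F := F) x
    have h4 := g_le (q := q) (F := F) x
    rw [← sq_abs]
    refine pow_le_pow_left₀ (abs_nonneg _) ?_ 2
    rw [abs_le]
    constructor <;> linarith
  have h1 := mul_meas_ge_le_integral_of_nonneg (μ := PM e F)
    (f := fun ω : Om e => (T q ω 0 x - g q F x) ^ 2) (ae_of_all _ fun ω => sq_nonneg _) hint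
    (r ^ 2)
  have h2 : {ω : Om e | r ≤ |T q ω 0 x - g q F x|} = {ω | r ^ 2 ≤ (T q ω 0 x - g q F x) ^ 2} := by
    ext ω
    show r ≤ |T q ω 0 x - g q F x| ↔ r ^ 2 ≤ (T q ω 0 x - g q F x) ^ 2
    rw [← sq_abs (T q ω 0 x - g q F x)]
    constructor
    · exact fun h => pow_le_pow_left₀ hr.le h 2
    · exact fun h => le_of_sq_le_sq h (abs_nonneg _)
  rw [h2, ← ofReal_measureReal]
  refine ENNReal.ofReal_le_ofReal ?_
  rw [le_div_iff₀ (by positivity), mul_comm]
  exact h1.trans hC

/-- the mesh point below `y` -/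
def mesh (H : ℕ) (y : V e) : V e := fun i => (H : ℤ) * (y i / H)

lemma n1_mesh_sub {H : ℕ} (hH : 0 < H) (y : V e) : n1 (y - mesh H y) ≤ (e + 2) * H := by
  unfold n1 mesh
  calc ∑ i, |(y - fun i => (H : ℤ) * (y i / H)) i| ≤ ∑ _i : Fin (e + 2), (H : ℤ) := by
        refine Finset.sum_le_sum fun i _ => ?_
        simp only [Pi.sub_apply]
        have hH' : (0 : ℤ) < H := by exact_mod_cast hH
        have h1 := Int.emod_nonneg (y i) hH'.ne'
        have h2 := Int.emod_lt_of_pos (y i) hH'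
        have h3 : y i - H * (y i / H) = y i % H := by
          have := Int.emod_add_mul_ediv (y i) H
          linarith
        rw [h3, abs_of_nonneg h1]
        exact h2.le
    _ = (e + 2) * H := by simp

/-- **Uniform concentration in a ball.** -/
theorem conc (hvar : VarB e q F) {δ K ε : ℝ} (hδ : 0 < δ) (hK : 0 < K) (hε : 0 < ε) :
    ∃ R0 : ℝ, 0 < R0 ∧ ∀ R : ℝ, R0 ≤ R →
      PM e F {ω | ∃ y : V e, (n1 y : ℝ) ≤ K * R ∧ δ * R < |T q ω 0 y - g q F y|} ≤
        ENNReal.ofReal ε := by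
  classical
  obtain ⟨C, hC, hvar⟩ := hvar
  have he : (0 : ℝ) ≤ e := Nat.cast_nonneg e
  have hb := q.hb
  -- the mesh size
  set θ : ℝ := δ / (8 * q.b * ((e : ℝ) + 2)) with hθ
  have hθ0 : 0 < θ := by positivity
  set M : ℕ := ⌈K / θ⌉₊ + 1 with hM
  have hM1 : K / θ + 1 ≤ M := by rw [hM]; push_cast; linarith [Nat.le_ceil (K / θ)]
  set B : Finset (V e) := Finset.Icc (fun _ => -(M : ℤ)) (fun _ => (M : ℤ)) with hB
  -- the constant
  set C' : ℝ := B.card * (C * (((e : ℝ) + 2) * M * (2 * θ)) / (δ / 4) ^ 2) with hC'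
  have hC'0 : 0 ≤ C' := by positivity
  refine ⟨max (1 / θ) (C' / ε + 1), lt_max_of_lt_left (by positivity), fun R hR => ?_⟩
  have hR1 : 1 / θ ≤ R := (le_max_left _ _).trans hR
  have hR2 : C' / ε + 1 ≤ R := (le_max_right _ _).trans hR
  have hR0 : 0 < R := by have : 0 ≤ C' / ε := by positivity
                         linarith
  have hθR : 1 ≤ θ * R := by
    rw [div_le_iff₀ hθ0] at hR1
    linarith
  set H : ℕ := ⌈θ * R⌉₊ with hH
  have hH1 : θ * R ≤ H := Nat.le_ceil _
  have hH2 : (H : ℝ) ≤ 2 * θ * R := by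
    have := Nat.ceil_lt_add_one (show 0 ≤ θ * R by positivity)
    linarith
  have hH0 : 0 < H := Nat.ceil_pos.2 (by positivity)
  have hH0' : (0 : ℝ) < H := by exact_mod_cast hH0
  -- the bad events at the mesh points
  have hsub : {ω : Om e | ∃ y : V e, (n1 y : ℝ) ≤ K * R ∧ δ * R < |T q ω 0 y - g q F y|} ⊆
      ⋃ w ∈ B, {ω | δ / 4 * R ≤ |T q ω 0 ((H : ℤ) • w) - g q F ((H : ℤ) • w)|} := by
    rintro ω ⟨y, hy1, hy2⟩
    rw [Set.mem_iUnion₂]
    set w : V e := fun i => y i / H with hw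
    have hz : (H : ℤ) • w = mesh H y := by
      funext i
      simp [hw, mesh]
    refine ⟨w, ?_, ?_⟩
    · rw [hB, Finset.mem_Icc]
      have h1 : ∀ i, |w i| ≤ (M : ℤ) := by
        intro i
        have h2 : (|y i| : ℝ) ≤ K * R := by
          have := coord_le_n1 y i
          have h3 : ((|y i| : ℤ) : ℝ) ≤ n1 y := by exact_mod_cast this
          push_cast at h3
          linarith
        have hH' : (0 : ℤ) < H := by exact_mod_cast hH0
        have h3 := Int.ediv_mul_le (y i) hH'.ne'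
        have h4 := Int.lt_ediv_add_one_mul_self (y i) hH'
        have h3' : ((w i : ℤ) : ℝ) * H ≤ y i := by exact_mod_cast h3
        have h4' : (y i : ℝ) < ((w i : ℤ) + 1 : ℝ) * H := by exact_mod_cast h4
        have h5 := (abs_le.1 h2)
        have h6 : K * R ≤ K / θ * H := by
          rw [div_mul_eq_mul_div, le_div_iff₀ hθ0]
          have := mul_le_mul_of_nonneg_left hH1 hK.le
          linarith
        have h7 : (w i : ℝ) ≤ K / θ := by
          by_contra hlt
          push Not at hlt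
          have := mul_lt_mul_of_pos_right hlt hH0'
          linarith
        have h8 : -(K / θ) - 1 ≤ (w i : ℝ) := by
          by_contra hlt
          push Not at hlt
          have h9 : ((w i : ℤ) : ℝ) + 1 < -(K / θ) := by linarith
          have := mul_lt_mul_of_pos_right h9 hH0'
          linarith
        have h10 : ((|w i| : ℤ) : ℝ) ≤ M := by
          push_cast
          rw [abs_le]
          constructor <;> linarith
        exact_mod_cast h10
      exact ⟨fun i => (abs_le.1 (h1 i)).1, fun i => (abs_le.1 (h1 i)).2⟩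
    · show δ / 4 * R ≤ |T q ω 0 ((H : ℤ) • w) - g q F ((H : ℤ) • w)|
      rw [hz]
      have h1 : (n1 (y - mesh H y) : ℝ) ≤ (e + 2) * H := by
        exact_mod_cast n1_mesh_sub hH0 y
      have h2 : (n1 (mesh H y - y) : ℝ) ≤ (e + 2) * H := by
        rw [n1_sub_comm]; exact h1
      have h3 := T_lip q ω 0 y (mesh H y)
      have h4 := T_lip q ω 0 (mesh H y) y
      have h5 := g_lip (q := q) (F := F) y (mesh H y)
      have h6 := g_lip (q := q) (F := F) (mesh H y) y
      have h7 : q.b * ((e + 2) * H) ≤ δ / 4 * R := by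
        have h8 : q.b * (((e : ℝ) + 2) * H) ≤ q.b * (((e : ℝ) + 2) * (2 * θ * R)) := by gcongr
        refine h8.trans (le_of_eq ?_)
        rw [hθ]
        field_simp
        ring
      have h8 := mul_le_mul_of_nonneg_left h1 hb.le
      have h9 := mul_le_mul_of_nonneg_left h2 hb.le
      rcases le_abs.1 (le_of_lt hy2) with h10 | h10
      · exact le_abs.2 (Or.inl (by linarith))
      · exact le_abs.2 (Or.inr (by linarith))
  refine (measure_mono hsub).trans ((measure_biUnion_finset_le _ _).trans ?_)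
  have hone : ∀ w ∈ B, PM e F {ω | δ / 4 * R ≤
      |T q ω 0 ((H : ℤ) • w) - g q F ((H : ℤ) • w)|} ≤
      ENNReal.ofReal (C * (((e : ℝ) + 2) * M * (2 * θ)) / (δ / 4) ^ 2 / R) := by
    intro w hw
    refine (cheb ((H : ℤ) • w) (hvar _) (by positivity)).trans (ENNReal.ofReal_le_ofReal ?_)
    have h1 : (n1 ((H : ℤ) • w) : ℝ) ≤ 2 * θ * R * (((e : ℝ) + 2) * M) := by
      have h2 : (n1 ((H : ℤ) • w) : ℝ) = H * n1 w := by
        unfold n1
        push_cast
        rw [Finset.mul_sum]
        refine Finset.sum_congr rfl fun i _ => ?_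
        simp [abs_mul]
      have h3 : (n1 w : ℝ) ≤ ((e : ℝ) + 2) * M := by
        have h4 : n1 w ≤ ∑ _i : Fin (e + 2), (M : ℤ) := by
          unfold n1
          refine Finset.sum_le_sum fun i _ => ?_
          rw [hB, Finset.mem_Icc] at hw
          exact abs_le.2 ⟨hw.1 i, hw.2 i⟩
        have h5 : ((n1 w : ℤ) : ℝ) ≤ ((∑ _i : Fin (e + 2), (M : ℤ) : ℤ) : ℝ) := by
          exact_mod_cast h4
        simpa using h5
      rw [h2]
      have h4 : (0 : ℝ) ≤ n1 w := by exact_mod_cast n1_nonneg w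
      calc (H : ℝ) * n1 w ≤ (2 * θ * R) * n1 w := mul_le_mul_of_nonneg_right hH2 h4
        _ ≤ (2 * θ * R) * (((e : ℝ) + 2) * M) :=
          mul_le_mul_of_nonneg_left h3 (by positivity)
    have h2 : C * n1 ((H : ℤ) • w) / (δ / 4 * R) ^ 2 ≤
        C * (2 * θ * R * (((e : ℝ) + 2) * M)) / (δ / 4 * R) ^ 2 := by gcongr
    refine h2.trans (le_of_eq ?_)
    field_simp
  refine (Finset.sum_le_sum hone).trans ?_
  rw [Finset.sum_const, nsmul_eq_mul, ← ENNReal.ofReal_natCast, ← ENNReal.ofReal_mul (by positivity)]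
  refine ENNReal.ofReal_le_ofReal ?_
  rw [← mul_div_assoc, ← hC', div_le_iff₀ hR0]
  have h1 : C' / ε ≤ R := by linarith
  rw [div_le_iff₀ hε] at h1
  linarith

end

end Pool.Agent.J6H38.NC
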